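import Pool.Agent.Helper61.Apc.Final

/-!
Asymptotic property C for direct unions of groups: a general criterion, and all countable linear
groups in positive characteristic or over the algebraic numbers.
-/

set_option autoImplicit false

namespace Pool.Agent.Results.MP_2c6f0d_gt.LinearGroups

open Pool.Agent.Helper75.Apc Pool.Agent.Helper61.Apc

universe u v

/-- `G` is a group with a proper left-invariant metric all of whose finitely generated subgroups
have finite asymptotic dimension, and `G` has asymptotic property C, the number of families
depending on the first radius only. -/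
def Conclusion (G : Type v) [Group G] [MetricSpace G] : Prop :=
  (∀ H : Subgroup G, H.FG → ∃ t : ℕ, ∀ r : ℝ, HasFamilies H (fun _ => r) t) ∧
  ∃ n : ℝ → ℕ, ∀ R : ℕ → ℝ, (∀ i, 0 < R i) → Monotone R → HasFamilies G R (n (R 0))

/-- (1) The criterion: if for every finite subset `T` there is a number `t` such that every
finitely generated subgroup containing `T` has a left-invariant pseudometric of asymptotic
dimension at most `t - 1` which is proper on the subgroup generated by `T`, then the conclusion
holds.
(2) The linear case: if for every finite subset `T` there are finitely many homomorphisms from `G`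
to groups `GL_d(K)`, where each field `K` has positive characteristic or consists of algebraic
numbers, whose common kernel meets the subgroup generated by `T` in a finite set, then the
conclusion holds. -/
theorem result :
    (∀ (G : Type v) [Group G] [MetricSpace G],
      (∀ a b c : G, dist (a * b) (a * c) = dist b c) →
      (∀ r : ℝ, (Metric.closedBall (1 : G) r).Finite) →
      (∀ T : Finset G, UniformOver T) → Conclusion G) ∧
    (∀ (G : Type v) [Group G] [MetricSpace G],
      (∀ a b c : G, dist (a * b) (a * c) = dist b c) →
      (∀ r : ℝ, (Metric.closedBall (1 : G) r).Finite) →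
      (∀ T : Finset G, ∃ (m : ℕ) (K : Fin m → Type u) (_ : ∀ i, Field (K i)) (d : Fin m → ℕ)
        (φ : ∀ i, G →* GL (Fin (d i)) (K i)), (∀ i, GoodField (K i)) ∧
          {g : G | g ∈ Subgroup.closure (T : Set G) ∧ ∀ i, φ i g = 1}.Finite) →
      Conclusion G) := by
  have key : ∀ (G : Type v) [Group G] [MetricSpace G],
      (∀ a b c : G, dist (a * b) (a * c) = dist b c) →
      (∀ r : ℝ, (Metric.closedBall (1 : G) r).Finite) →
      (∀ T : Finset G, UniformOver T) → Conclusion G := by
    intro G _ _ hinv hprop hP
    refine ⟨fun H hH => finite_asdim_of_uniform hinv hprop hP H hH, ?_⟩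
    choose n hn using hasFamilies_of_uniform hinv hprop hP
    exact ⟨n, fun R hR hm => hn (R 0) R hR hm le_rfl⟩
  refine ⟨key, ?_⟩
  intro G _ _ hinv hprop hlin
  exact key G hinv hprop (uniformOver_of_linear.{u, v} hlin)

end Pool.Agent.Results.MP_2c6f0d_gt.LinearGroups
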