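import Pool.Agent.Helper61.HO.Main
import Pool.Agent.Helper61.HO.Stmt

/-!
# One-parameter groups of isometries and the rotation problem
-/

set_option autoImplicit false

universe u

open Pool.Agent.Helper61.HP

/-- **One non-scalar one-parameter group is enough.** Let `E` be a separable complex Banach space
without subspaces isomorphic to the (real) sequence space `ℓ¹` whose complex-linear surjective
isometries act transitively on the unit sphere. If there is a bounded operator `D` on `E`, not a
scalar multiple of the identity, such that all the operators `exp (t D)`, `t` real, are isometric,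
then `E` is linearly isometric to a complex Hilbert space. -/
theorem Pool.Agent.Results.MP_cc72b1_an.OneParameterGroup.result
    (E : Type u) [NormedAddCommGroup E] [NormedSpace ℂ E] [CompleteSpace E]
    [TopologicalSpace.SeparableSpace E] (htrans : TransitiveNorm E) (hl1 : ¬ HasEllOne E)
    (D : E →L[ℂ] E) (hD : GeneratesIsometries D)
    (hns : ∀ c : ℂ, D ≠ c • ContinuousLinearMap.id ℂ E) : IsometricToHilbert E := by
  have hp := ho_main htrans hl1 D hD hns
  have hp' : ∀ x y : E, ‖x + y‖ * ‖x + y‖ + ‖x - y‖ * ‖x - y‖ = 2 * (‖x‖ * ‖x‖ + ‖y‖ * ‖y‖) := by
    intro x y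
    have := hp x y
    simpa only [sq] using this
  let _ : InnerProductSpace ℂ E := InnerProductSpace.ofNorm ℂ hp'
  exact ⟨E, inferInstance, inferInstance, inferInstance, ⟨LinearIsometryEquiv.refl ℂ E⟩⟩
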